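import Pool.Agent.H464R3.Deriv
import Pool.Agent.H464R3.WeakDiv

set_option autoImplicit false

namespace Pool.Agent.Results.MP_815c6c_an.SubquadraticFails

open MeasureTheory Set Filter Topology
open scoped ContDiff Pointwise
open Pool.Agent.H464R3.Fields Pool.Agent.H464R3.IBP

/-- `ℝ^m` with the Euclidean norm. -/
abbrev RE (m : ℕ) := EuclideanSpace ℝ (Fin m)

/-- Real `n × d` matrices with the Frobenius norm. -/
abbrev Mat (n d : ℕ) := EuclideanSpace ℝ (Fin n × Fin d)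

/-- `A(ξ) = |ξ|^(p-2) ξ`. -/
noncomputable def Aop (p : ℝ) {n d : ℕ} (ξ : Mat n d) : Mat n d := ‖ξ‖ ^ (p - 2) • ξ

/-- `V(ξ) = |ξ|^((p-2)/2) ξ`. -/
noncomputable def Vop (p : ℝ) {n d : ℕ} (ξ : Mat n d) : Mat n d := ‖ξ‖ ^ ((p - 2) / 2) • ξ

/-- `h : Ω → ℝ^n` is `p`-harmonic on `Ω ⊆ ℝ^d` with weak gradient `G`: `h` and `G` are `L^p` on
compact subsets of `Ω`, `G` is the distributional gradient of `h` on `Ω`, and
`∫_Ω ⟨A(G), ∇φ⟩ = 0` for all test maps `φ ∈ C_c^∞(Ω; ℝ^n)`. -/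
structure IsPHarmonic {d n : ℕ} (p : ℝ) (Ω : Set (RE d)) (h : RE d → RE n)
    (G : RE d → Mat n d) : Prop where
  memLp_map : ∀ K : Set (RE d), IsCompact K → K ⊆ Ω →
    MemLp h (ENNReal.ofReal p) (volume.restrict K)
  memLp_grad : ∀ K : Set (RE d), IsCompact K → K ⊆ Ω →
    MemLp G (ENNReal.ofReal p) (volume.restrict K)
  weak_grad : ∀ φ : RE d → ℝ, ContDiff ℝ ∞ φ → HasCompactSupport φ → tsupport φ ⊆ Ω →
    ∀ (α : Fin n) (i : Fin d),
      ∫ x in Ω, h x α * fderiv ℝ φ x (EuclideanSpace.single i 1)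
        = - ∫ x in Ω, G x (α, i) * φ x
  weak_eq : ∀ φ : RE d → RE n, ContDiff ℝ ∞ φ → HasCompactSupport φ → tsupport φ ⊆ Ω →
    ∫ x in Ω, ∑ α : Fin n, ∑ i : Fin d,
      Aop p (G x) (α, i) * (fderiv ℝ φ x (EuclideanSpace.single i 1)) α = 0

/-- the mean oscillation `(⨍_S |f - ⟨f⟩_S|^2)^(1/2)`. -/
noncomputable def osc {d n : ℕ} (f : RE d → Mat n d) (S : Set (RE d)) : ℝ :=
  Real.sqrt (⨍ x in S, ‖f x - ⨍ y in S, f y‖ ^ 2)

/-! ### the explicit map -/

section construction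

variable {d : ℕ}

/-- indexing of pairs -/
def idx (d : ℕ) : Fin (d * d) ≃ Fin d × Fin d := finProdFinEquiv.symm

/-- the map `|x|^(2μ) (x ⊗ x - |x|^2 I / d)` -/
noncomputable def hmap (μ : ℝ) (x : RE d) : RE (d * d) :=
  WithLp.toLp 2 fun α => H μ x (idx d α).1 (idx d α).2

/-- its gradient -/
noncomputable def Gmap (μ : ℝ) (x : RE d) : Mat (d * d) d :=
  WithLp.toLp 2 fun β => Fld (2 * μ) μ x (idx d β.1).1 (idx d β.1).2 β.2

/-- the constant in the norm of the gradient -/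
noncomputable def Kc (d : ℕ) (μ : ℝ) : ℝ :=
  (1 - 1 / d) * ((2 * μ) ^ 2 + 4 * (2 * μ) + 2 * (d + 2))

lemma Kc_pos (hd : 3 ≤ d) {μ : ℝ} (hμ : 0 < μ) : 0 < Kc d μ := by
  unfold Kc
  have hd' : (3 : ℝ) ≤ d := by exact_mod_cast hd
  apply mul_pos
  · have : 1 / (d : ℝ) ≤ 1 / 3 := one_div_le_one_div_of_le (by norm_num) hd'
    linarith
  · positivity

lemma norm_Gmap_sq (hd : 0 < d) {μ : ℝ} (hμ : 0 < μ) (x : RE d) :
    ‖Gmap μ x‖ ^ 2 = Kc d μ * (‖x‖ ^ 2) ^ (2 * μ + 1) := by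
  unfold Kc
  rw [← sum_Fld_sq hd (2 * μ) μ (by linarith) x, EuclideanSpace.norm_sq_eq]
  rw [Fintype.sum_prod_type]
  rw [← (idx d).symm.sum_comp]
  rw [Fintype.sum_prod_type]
  refine Finset.sum_congr rfl fun i _ => Finset.sum_congr rfl fun j _ =>
    Finset.sum_congr rfl fun k _ => ?_
  simp only [Gmap, Equiv.apply_symm_apply, Real.norm_eq_abs, sq_abs]

lemma norm_Gmap (hd : 0 < d) {μ : ℝ} (hμ : 0 < μ) (x : RE d) :
    ‖Gmap μ x‖ = (Kc d μ * (‖x‖ ^ 2) ^ (2 * μ + 1)) ^ (1 / 2 : ℝ) := by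
  rw [← norm_Gmap_sq hd hμ x, ← Real.sqrt_eq_rpow, Real.sqrt_sq (norm_nonneg _)]

lemma Gmap_zero (μ : ℝ) : Gmap μ (0 : RE d) = 0 := by
  unfold Gmap
  ext β
  simp [Fld_zero]

lemma Gmap_neg (μ : ℝ) (x : RE d) : Gmap μ (-x) = - Gmap μ x := by
  unfold Gmap
  ext β
  simp [Fld_neg]

/-- `A(∇h)` is again a field of the same type. -/
lemma Aop_Gmap (hd : 3 ≤ d) {μ : ℝ} (hμ : 0 < μ) (p : ℝ) (x : RE d) (β : Fin (d * d) × Fin d) :
    Aop p (Gmap μ x) β = (Kc d μ) ^ ((p - 2) / 2) *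
      Fld (2 * μ) (μ + (μ + 1 / 2) * (p - 2)) x (idx d β.1).1 (idx d β.1).2 β.2 := by
  by_cases hx : x = 0
  · subst hx
    unfold Aop
    rw [Gmap_zero]
    simp [Fld_zero]
  have hN : 0 < ‖x‖ ^ 2 := by positivity
  have hK := Kc_pos hd hμ
  have h1 : ‖Gmap μ x‖ ^ (p - 2) = (Kc d μ) ^ ((p - 2) / 2) *
      (‖x‖ ^ 2) ^ ((μ + 1 / 2) * (p - 2)) := by
    rw [norm_Gmap (by omega) hμ, ← Real.rpow_mul (by positivity),
      Real.mul_rpow hK.le (by positivity), ← Real.rpow_mul hN.le]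
    congr 2 <;> ring
  unfold Aop
  rw [PiLp.smul_apply, h1, smul_eq_mul, mul_assoc]
  congr 1
  simp only [Gmap]
  unfold Fld
  have e1 : (‖x‖ ^ 2) ^ ((μ + 1 / 2) * (p - 2)) * (‖x‖ ^ 2) ^ (μ - 1)
      = (‖x‖ ^ 2) ^ (μ + (μ + 1 / 2) * (p - 2) - 1) := by
    rw [← Real.rpow_add hN]; congr 1; ring
  have e2 : (‖x‖ ^ 2) ^ ((μ + 1 / 2) * (p - 2)) * (‖x‖ ^ 2) ^ μ
      = (‖x‖ ^ 2) ^ (μ + (μ + 1 / 2) * (p - 2)) := by
    rw [← Real.rpow_add hN]; congr 1; ring
  rw [← e1, ← e2]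
  ring

lemma norm_Vop_Gmap (hd : 3 ≤ d) {μ : ℝ} (hμ : 0 < μ) {p : ℝ} (hp : 0 < p) (x : RE d) :
    ‖Vop p (Gmap μ x)‖ = (Kc d μ) ^ (p / 4) * ‖x‖ ^ ((2 * μ + 1) * p / 2) := by
  have hK := Kc_pos hd hμ
  by_cases hx : x = 0
  · subst hx
    unfold Vop
    rw [Gmap_zero]
    have : (2 * μ + 1) * p / 2 ≠ 0 := by positivity
    simp [Real.zero_rpow this]
  have hN : 0 < ‖x‖ := by positivity
  have hG : 0 < ‖Gmap μ x‖ := by
    rw [norm_Gmap (by omega) hμ]; positivity
  unfold Vop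
  rw [norm_smul, Real.norm_of_nonneg (by positivity)]
  have h1 : ‖Gmap μ x‖ ^ ((p - 2) / 2) * ‖Gmap μ x‖ = ‖Gmap μ x‖ ^ (p / 2) := by
    nth_rewrite 2 [← Real.rpow_one ‖Gmap μ x‖]
    rw [← Real.rpow_add hG]
    congr 1; ring
  rw [h1, norm_Gmap (by omega) hμ, ← Real.rpow_mul (by positivity),
      Real.mul_rpow hK.le (by positivity), ← Real.rpow_mul (by positivity),
      ← Real.rpow_natCast ‖x‖ 2, ← Real.rpow_mul hN.le]
  congr 2 <;> push_cast <;> ring

lemma Vop_Gmap_neg (μ p : ℝ) (x : RE d) : Vop p (Gmap μ (-x)) = - Vop p (Gmap μ x) := by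
  unfold Vop
  rw [Gmap_neg, norm_neg, smul_neg]

lemma continuous_hmap {μ : ℝ} (hμ : 0 < μ) : Continuous (hmap (d := d) μ) := by
  unfold hmap
  refine (PiLp.continuous_toLp 2 _).comp ?_
  exact continuous_pi fun α => continuous_H hμ.le _ _

lemma continuous_Gmap (hd : 0 < d) {μ : ℝ} (hμ : 0 < μ) : Continuous (Gmap (d := d) μ) := by
  unfold Gmap
  refine (PiLp.continuous_toLp 2 _).comp ?_
  exact continuous_pi fun α => continuous_Fld hd _ _ (by linarith) _ _ _

end construction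

lemma memLp_of_continuous {d : ℕ} {F : Type*} [NormedAddCommGroup F]
    [SecondCountableTopologyEither (RE d) F] {f : RE d → F} (hf : Continuous f) {K : Set (RE d)}
    (hK : IsCompact K) (q : ENNReal) : MemLp f q (volume.restrict K) := by
  have hfin : IsFiniteMeasure (volume.restrict K) := ⟨by
    rw [Measure.restrict_apply_univ]; exact hK.measure_lt_top⟩
  obtain ⟨C, hC⟩ := hK.exists_bound_of_continuousOn hf.continuousOn
  refine MemLp.of_bound hf.aestronglyMeasurable C ?_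
  exact (ae_restrict_iff' hK.measurableSet).2 (Eventually.of_forall hC)

/-- The explicit map is `p`-harmonic. -/
theorem isPHarmonic {d : ℕ} (hd : 3 ≤ d) {p μ : ℝ} (hp1 : 1 < p) (hμ : 0 < μ)
    (hroot : 2 * (p - 1) * μ ^ 2 + (3 * p - 4 + d) * μ - (2 - p) = 0) :
    IsPHarmonic p Set.univ (hmap (d := d) μ) (Gmap (d := d) μ) := by
  have hd0 : 0 < d := by omega
  set ν : ℝ := μ + (μ + 1 / 2) * (p - 2) with hν
  have hν1 : 0 < 2 * ν + 1 := by
    have : 2 * ν + 1 = (2 * μ + 1) * (p - 1) := by rw [hν]; ring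
    rw [this]
    apply mul_pos <;> linarith
  have hdiv0 : (2 * μ) * (2 * ν + d) + 4 * ν = 0 := by
    rw [hν]
    linear_combination 2 * hroot
  refine ⟨?_, ?_, ?_, ?_⟩
  · intro K hK _
    exact memLp_of_continuous (continuous_hmap hμ) hK _
  · intro K hK _
    exact memLp_of_continuous (continuous_Gmap hd0 hμ) hK _
  · intro φ hφ hs _ α i
    simp only [Measure.restrict_univ]
    have key := (weak_div hd0
      (fun k x => if k = i then H μ x (idx d α).1 (idx d α).2 else 0)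
      (fun k x => if k = i then (‖x‖ ^ 2) ^ μ • Lq x (idx d α).1 (idx d α).2
        + q x (idx d α).1 (idx d α).2 • LN μ x else 0)
      (fun x => Fld (2 * μ) μ x (idx d α).1 (idx d α).2 i)
      (fun k => by
        by_cases hk : k = i
        · simp only [hk, if_true]; exact continuous_H hμ.le _ _
        · simp only [hk, if_false]; exact continuous_const)
      (continuous_Fld hd0 _ _ (by linarith) _ _ _)
      (fun x hx k => by
        by_cases hk : k = i
        · simp only [hk, if_true]; exact hasFDerivAt_H μ hx _ _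
        · simp only [hk, if_false]; exact hasFDerivAt_const _ _)
      (fun x hx => by
        rw [Finset.sum_eq_single i]
        · simp only [if_true]
          exact H_deriv_single μ x _ _ _
        · intro k _ hk
          simp [hk]
        · simp)
      φ hφ hs).2
    have e : ∀ x, ∑ k, (if k = i then H μ x (idx d α).1 (idx d α).2 else 0) *
        fderiv ℝ φ x (EuclideanSpace.single k 1)
        = hmap μ x α * fderiv ℝ φ x (EuclideanSpace.single i 1) := by
      intro x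
      rw [Finset.sum_eq_single i]
      · simp [hmap]
      · intro k _ hk
        simp [hk]
      · simp
    simp only [e] at key
    exact key
  · intro φ hφ hs _
    simp only [Measure.restrict_univ]
    have hcomp : ∀ α : Fin (d * d), Integrable (fun x => ∑ i : Fin d,
        Fld (2 * μ) ν x (idx d α).1 (idx d α).2 i *
          fderiv ℝ (fun y => φ y α) x (EuclideanSpace.single i 1)) ∧
        ∫ x, ∑ i : Fin d,
        Fld (2 * μ) ν x (idx d α).1 (idx d α).2 i *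
          fderiv ℝ (fun y => φ y α) x (EuclideanSpace.single i 1) = 0 := by
      intro α
      have hφα : ContDiff ℝ ∞ (fun y => φ y α) := by
        exact (contDiff_euclidean.1 hφ) α
      have hsα : HasCompactSupport (fun y => φ y α) :=
        hs.comp_left (g := fun z : RE (d * d) => z α) (by simp)
      have key := weak_div hd0
        (fun k x => Fld (2 * μ) ν x (idx d α).1 (idx d α).2 k)
        (fun k x => LF (2 * μ) ν x (idx d α).1 (idx d α).2 k)
        (fun _ => 0)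
        (fun k => continuous_Fld hd0 _ _ hν1 _ _ _) continuous_const
        (fun x hx k => hasFDerivAt_Fld _ _ hx _ _ _)
        (fun x hx => by
          rw [sum_LF_single hd0 _ _ hx, hdiv0, zero_mul])
        (fun y => φ y α) hφα hsα
      refine ⟨key.1, ?_⟩
      rw [key.2]
      simp
    have hfd : ∀ (x : RE d) (α : Fin (d * d)) (i : Fin d),
        fderiv ℝ (fun y => φ y α) x (EuclideanSpace.single i 1)
          = (fderiv ℝ φ x (EuclideanSpace.single i 1)) α := by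
      intro x α i
      have hφx : DifferentiableAt ℝ φ x :=
        (hφ.differentiable (by simp)) x
      have h1 : HasFDerivAt (fun y => φ y α)
          ((EuclideanSpace.proj α : RE (d * d) →L[ℝ] ℝ).comp (fderiv ℝ φ x)) x :=
        (EuclideanSpace.proj α : RE (d * d) →L[ℝ] ℝ).hasFDerivAt.comp x hφx.hasFDerivAt
      rw [h1.fderiv]
      rfl
    have e : ∀ x, ∑ α : Fin (d * d), ∑ i : Fin d,
      Aop p (Gmap μ x) (α, i) * (fderiv ℝ φ x (EuclideanSpace.single i 1)) α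
      = ∑ α : Fin (d * d), (Kc d μ) ^ ((p - 2) / 2) * ∑ i : Fin d,
        Fld (2 * μ) ν x (idx d α).1 (idx d α).2 i *
          fderiv ℝ (fun y => φ y α) x (EuclideanSpace.single i 1) := by
      intro x
      refine Finset.sum_congr rfl fun α _ => ?_
      rw [Finset.mul_sum]
      refine Finset.sum_congr rfl fun i _ => ?_
      rw [Aop_Gmap hd hμ, hfd]
      ring
    simp only [e]
    rw [integral_finsetSum _ (fun α _ => (hcomp α).1.const_mul _)]
    apply Finset.sum_eq_zero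
    intro α _
    rw [integral_const_mul, (hcomp α).2, mul_zero]


/-- the root of the quadratic equation -/
lemma exists_root {d : ℕ} (hd : 3 ≤ d) {p : ℝ} (hp1 : 1 < p) (hp2 : p < 2) :
    ∃ μ : ℝ, 0 < μ ∧ (2 * μ + 1) * p / 2 < 1 ∧
      2 * (p - 1) * μ ^ 2 + (3 * p - 4 + d) * μ - (2 - p) = 0 := by
  have hd' : (3 : ℝ) ≤ d := by exact_mod_cast hd
  set f : ℝ → ℝ := fun μ => 2 * (p - 1) * μ ^ 2 + (3 * p - 4 + d) * μ - (2 - p) with hf
  have hfc : Continuous f := by fun_prop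
  set b : ℝ := (2 - p) / (2 * p) with hb
  have hp0 : 0 < p := by linarith
  have hb0 : 0 < b := by rw [hb]; apply div_pos <;> linarith
  have hf0 : f 0 < 0 := by simp only [hf]; linarith [mul_zero (2 * (p - 1))]
  have hfb : 0 < f b := by
    have : f b = (2 - p) / (2 * p ^ 2) * ((d - 1) * p - 2) := by
      simp only [hf, hb]; field_simp; ring
    rw [this]
    apply mul_pos
    · apply div_pos <;> nlinarith
    · nlinarith
  obtain ⟨μ, hμ, hμ0⟩ := intermediate_value_Ioo hb0.le hfc.continuousOn ⟨hf0, hfb⟩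
  refine ⟨μ, hμ.1, ?_, hμ0⟩
  have h2 : μ < (2 - p) / (2 * p) := hμ.2
  rw [lt_div_iff₀ (by linarith)] at h2
  linarith

section noC1

variable {d : ℕ}

lemma not_C1 (hd : 0 < d) {n : ℕ} {B σ : ℝ} (hB : 0 < B) (hσ0 : 0 < σ) (hσ1 : σ < 1)
    (f : RE d → Mat n d) (hf : ∀ x, ‖f x‖ = B * ‖x‖ ^ σ) (U : Set (RE d)) (hU : IsOpen U)
    (h0 : (0 : RE d) ∈ U) :
    ¬ ∃ W : RE d → Mat n d, ContDiffOn ℝ 1 W U ∧ W =ᵐ[volume.restrict U] f := by
  have hne : Nonempty (Fin d) := ⟨⟨0, hd⟩⟩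
  rintro ⟨W, hW, hWf⟩
  have hdiff : DifferentiableAt ℝ W 0 :=
    (hW.differentiableOn (by norm_num)).differentiableAt (hU.mem_nhds h0)
  -- points where `W = f` accumulate at the origin
  have hfreq : ∃ᶠ x in 𝓝[≠] (0 : RE d), W x = f x := by
    intro hcon
    rw [eventually_nhdsWithin_iff] at hcon
    obtain ⟨O, hO, hOo, hO0⟩ := mem_nhds_iff.1 (inter_mem hcon (hU.mem_nhds h0))
    have hsub : O \ {0} ⊆ {x | ¬ W x = f x} := fun x hx => (hO hx.1).1 hx.2
    have hae : ∀ᵐ x ∂(volume.restrict U), W x = f x := hWf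
    rw [ae_restrict_iff' hU.measurableSet] at hae
    have hnull : volume (O \ {0}) = 0 := by
      refine measure_mono_null ?_ hae
      intro x hx
      simp only [mem_compl_iff, mem_setOf_eq]
      intro h
      exact hsub hx (h (hO hx.1).2)
    have h1 : volume O = 0 := by
      have : volume O ≤ volume (O \ {0}) + volume ({0} : Set (RE d)) := by
        refine (measure_mono ?_).trans (measure_union_le _ _)
        intro x hx
        by_cases hx0 : x = 0
        · right; exact hx0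
        · left; exact ⟨hx, hx0⟩
      rw [hnull, measure_singleton, add_zero] at this
      exact le_antisymm this bot_le
    exact (hOo.measure_pos volume ⟨0, hO0⟩).ne' h1
  -- Lipschitz bound at the origin
  obtain ⟨K, hK⟩ := hdiff.hasFDerivAt.isBigO_sub.bound
  have hK' : ∀ᶠ x in 𝓝[≠] (0 : RE d), ‖W x - W 0‖ ≤ K * ‖x‖ := by
    have := hK.filter_mono (nhdsWithin_le_nhds (s := {0}ᶜ))
    simpa using this
  have hW0 : W 0 = 0 := by
    by_contra hne0
    have hpos : 0 < ‖W 0‖ := norm_pos_iff.2 hne0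
    have hc : Continuous (fun x : RE d => B * ‖x‖ ^ σ + K * ‖x‖) := by
      have : Continuous (fun x : RE d => ‖x‖ ^ σ) :=
        continuous_norm.rpow_const (fun x => Or.inr hσ0.le)
      fun_prop
    have h1 : ∀ᶠ x in 𝓝[≠] (0 : RE d), B * ‖x‖ ^ σ + K * ‖x‖ < ‖W 0‖ := by
      have h2 := hc.tendsto 0
      simp only [norm_zero, Real.zero_rpow hσ0.ne', mul_zero, add_zero] at h2
      exact (h2.mono_left nhdsWithin_le_nhds).eventually (gt_mem_nhds hpos)
    obtain ⟨x, hx1, hx2, hx3⟩ := (hfreq.and_eventually (h1.and hK')).exists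
    have : ‖W 0‖ ≤ ‖W x‖ + ‖W x - W 0‖ := by
      have := norm_sub_norm_le (W 0) (W x)
      rw [norm_sub_rev] at this
      linarith
    rw [hx1, hf] at this
    rw [hx1] at hx3
    linarith
  have hc : Continuous (fun x : RE d => K * ‖x‖ ^ (1 - σ)) := by
    have : Continuous (fun x : RE d => ‖x‖ ^ (1 - σ)) :=
      continuous_norm.rpow_const (fun x => Or.inr (by linarith))
    fun_prop
  have h1 : ∀ᶠ x in 𝓝[≠] (0 : RE d), K * ‖x‖ ^ (1 - σ) < B := by
    have h2 := hc.tendsto 0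
    have h3 : (1 - σ) ≠ 0 := by linarith
    simp only [norm_zero, Real.zero_rpow h3, mul_zero] at h2
    exact (h2.mono_left nhdsWithin_le_nhds).eventually (gt_mem_nhds hB)
  have h4 : ∀ᶠ x in 𝓝[≠] (0 : RE d), x ≠ 0 := eventually_mem_nhdsWithin
  obtain ⟨x, hx1, hx2, hx3, hx4⟩ := (hfreq.and_eventually (h1.and (hK'.and h4))).exists
  rw [hW0, sub_zero, hx1, hf] at hx3
  have hxn : 0 < ‖x‖ := norm_pos_iff.2 hx4
  have hxs : 0 < ‖x‖ ^ σ := Real.rpow_pos_of_pos hxn σ
  have e : ‖x‖ = ‖x‖ ^ (1 - σ) * ‖x‖ ^ σ := by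
    rw [← Real.rpow_add hxn]; simp
  have : B * ‖x‖ ^ σ < B * ‖x‖ ^ σ := by
    calc B * ‖x‖ ^ σ ≤ K * ‖x‖ := hx3
      _ = (K * ‖x‖ ^ (1 - σ)) * ‖x‖ ^ σ := by rw [mul_assoc, ← e]
      _ < B * ‖x‖ ^ σ := mul_lt_mul_of_pos_right hx2 hxs
  exact lt_irrefl _ this

end noC1

section decay

variable {d : ℕ}

lemma integral_ball_odd {n : ℕ} (f : RE d → Mat n d) (hf : ∀ x, f (-x) = - f x) (r : ℝ) :
    ∫ x in Metric.ball (0 : RE d) r, f x = 0 := by
  have h1 : ∫ x in Metric.ball (0 : RE d) r, f x = ∫ x in Metric.ball (0 : RE d) r, f (-x) := by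
    have hm := (Measure.measurePreserving_neg (volume : Measure (RE d)))
    have := hm.setIntegral_preimage_emb (MeasurableEquiv.neg (RE d)).measurableEmbedding f
      (Metric.ball (0 : RE d) r)
    have hpre : (Neg.neg ⁻¹' Metric.ball (0 : RE d) r) = Metric.ball (0 : RE d) r := by
      ext x; simp
    rw [← this, hpre]
  simp only [hf, integral_neg] at h1
  have h2 : (2 : ℝ) • ∫ x in Metric.ball (0 : RE d) r, f x = 0 := by
    rw [two_smul]
    nth_rewrite 1 [h1]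
    simp
  rcases smul_eq_zero.1 h2 with h | h
  · norm_num at h
  · exact h

lemma osc_ball (hd : 0 < d) {n : ℕ} {B σ : ℝ} (hσ0 : 0 < σ)
    (f : RE d → Mat n d) (hf : ∀ x, ‖f x‖ = B * ‖x‖ ^ σ) (hodd : ∀ x, f (-x) = - f x)
    {r : ℝ} (hr : 0 < r) :
    osc f (Metric.ball (0 : RE d) r) = r ^ σ * osc f (Metric.ball (0 : RE d) 1) := by
  have hne : Nonempty (Fin d) := ⟨⟨0, hd⟩⟩
  have key : ∀ s : ℝ, osc f (Metric.ball (0 : RE d) s)
      = Real.sqrt ((volume.real (Metric.ball (0 : RE d) s))⁻¹ *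
          ∫ x in Metric.ball (0 : RE d) s, (B * ‖x‖ ^ σ) ^ 2) := by
    intro s
    unfold osc
    have hav : (⨍ y in Metric.ball (0 : RE d) s, f y) = 0 := by
      rw [setAverage_eq, integral_ball_odd f hodd s, smul_zero]
    simp only [hav, sub_zero, hf]
    rw [setAverage_eq, smul_eq_mul]
  rw [key r, key 1]
  have hball : r • Metric.ball (0 : RE d) 1 = Metric.ball (0 : RE d) r := by
    rw [smul_unitBall_of_pos hr]
  have hint := Measure.setIntegral_comp_smul_of_pos (volume : Measure (RE d))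
    (fun x => (B * ‖x‖ ^ σ) ^ 2) (Metric.ball (0 : RE d) 1) hr
  rw [hball] at hint
  have hvol : volume.real (Metric.ball (0 : RE d) r)
      = r ^ (Module.finrank ℝ (RE d)) * volume.real (Metric.ball (0 : RE d) 1) := by
    simp only [Measure.real]
    rw [Measure.addHaar_ball_of_pos _ _ hr, ENNReal.toReal_mul, ENNReal.toReal_ofReal (by positivity)]
  have hsc : ∀ x : RE d, (B * ‖r • x‖ ^ σ) ^ 2 = (r ^ σ) ^ 2 * (B * ‖x‖ ^ σ) ^ 2 := by
    intro x
    rw [norm_smul, Real.norm_of_nonneg hr.le, Real.mul_rpow hr.le (norm_nonneg _)]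
    ring
  simp only [hsc] at hint
  rw [integral_const_mul, smul_eq_mul] at hint
  have hrp : 0 < r ^ (Module.finrank ℝ (RE d)) := by positivity
  have hI : ∫ x in Metric.ball (0 : RE d) r, (B * ‖x‖ ^ σ) ^ 2
      = r ^ (Module.finrank ℝ (RE d)) * ((r ^ σ) ^ 2 *
        ∫ x in Metric.ball (0 : RE d) 1, (B * ‖x‖ ^ σ) ^ 2) := by
    rw [hint]
    field_simp
  rw [hI, hvol]
  have hv1 : 0 < volume.real (Metric.ball (0 : RE d) 1) := by
    simp only [Measure.real]
    exact ENNReal.toReal_pos (Metric.isOpen_ball.measure_pos volume ⟨0, by simp⟩).ne'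
      measure_ball_lt_top.ne
  have : (r ^ (Module.finrank ℝ (RE d)) * volume.real (Metric.ball (0 : RE d) 1))⁻¹ *
      (r ^ (Module.finrank ℝ (RE d)) * ((r ^ σ) ^ 2 *
        ∫ x in Metric.ball (0 : RE d) 1, (B * ‖x‖ ^ σ) ^ 2))
      = (r ^ σ) ^ 2 * ((volume.real (Metric.ball (0 : RE d) 1))⁻¹ *
        ∫ x in Metric.ball (0 : RE d) 1, (B * ‖x‖ ^ σ) ^ 2) := by
    field_simp
  rw [this, Real.sqrt_mul (by positivity), Real.sqrt_sq (by positivity)]

lemma osc_one_pos (hd : 0 < d) {n : ℕ} {B σ : ℝ} (hB : 0 < B) (hσ0 : 0 < σ)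
    (f : RE d → Mat n d) (hf : ∀ x, ‖f x‖ = B * ‖x‖ ^ σ) (hodd : ∀ x, f (-x) = - f x) :
    0 < osc f (Metric.ball (0 : RE d) 1) := by
  have hne : Nonempty (Fin d) := ⟨⟨0, hd⟩⟩
  unfold osc
  have hav : (⨍ y in Metric.ball (0 : RE d) 1, f y) = 0 := by
    rw [setAverage_eq, integral_ball_odd f hodd 1, smul_zero]
  simp only [hav, sub_zero, hf]
  rw [setAverage_eq, smul_eq_mul]
  apply Real.sqrt_pos.2
  have hv1 : 0 < volume.real (Metric.ball (0 : RE d) 1) := by
    simp only [Measure.real]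
    exact ENNReal.toReal_pos (Metric.isOpen_ball.measure_pos volume ⟨0, by simp⟩).ne'
      measure_ball_lt_top.ne
  apply mul_pos (inv_pos.2 hv1)
  have hc : Continuous (fun x : RE d => (B * ‖x‖ ^ σ) ^ 2) := by
    have : Continuous (fun x : RE d => ‖x‖ ^ σ) :=
      continuous_norm.rpow_const (fun x => Or.inr hσ0.le)
    fun_prop
  have hint : IntegrableOn (fun x : RE d => (B * ‖x‖ ^ σ) ^ 2) (Metric.ball (0 : RE d) 1) :=
    (hc.continuousOn.integrableOn_compact (isCompact_closedBall (0 : RE d) 1)).mono_set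
      Metric.ball_subset_closedBall
  rw [setIntegral_pos_iff_support_of_nonneg_ae
    (Eventually.of_forall fun x => sq_nonneg _) hint]
  have hsup : Metric.ball (0 : RE d) 1 \ {0} ⊆
      (Function.support fun x : RE d => (B * ‖x‖ ^ σ) ^ 2) ∩ Metric.ball (0 : RE d) 1 := by
    intro x hx
    have hxn : 0 < ‖x‖ := norm_pos_iff.2 hx.2
    refine ⟨?_, hx.1⟩
    have : 0 < (B * ‖x‖ ^ σ) ^ 2 := by positivity
    exact this.ne'
  refine lt_of_lt_of_le ?_ (measure_mono hsup)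
  rw [measure_diff_null (measure_singleton _)]
  exact Metric.isOpen_ball.measure_pos volume ⟨0, by simp⟩

lemma not_decay (hd : 0 < d) {n : ℕ} {B σ : ℝ} (hB : 0 < B) (hσ0 : 0 < σ) (hσ1 : σ < 1)
    (f : RE d → Mat n d) (hf : ∀ x, ‖f x‖ = B * ‖x‖ ^ σ) (hodd : ∀ x, f (-x) = - f x)
    {r : ℝ} (hr : 0 < r) (c : ℝ) :
    ¬ ∀ θ : ℝ, 0 < θ → θ ≤ 1 → osc f (Metric.ball (0 : RE d) (θ * r))
      ≤ c * θ * osc f (Metric.ball (0 : RE d) r) := by
  intro h
  have hM := osc_one_pos hd hB hσ0 f hf hodd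
  set M := osc f (Metric.ball (0 : RE d) 1) with hMdef
  have h' : ∀ θ : ℝ, 0 < θ → θ ≤ 1 → θ ^ σ ≤ c * θ := by
    intro θ h0 h1
    have h2 := h θ h0 h1
    rw [osc_ball hd hσ0 f hf hodd (by positivity), osc_ball hd hσ0 f hf hodd hr,
      Real.mul_rpow h0.le hr.le] at h2
    have h3 : θ ^ σ * (r ^ σ * M) ≤ (c * θ) * (r ^ σ * M) := by
      calc θ ^ σ * (r ^ σ * M) = θ ^ σ * r ^ σ * M := by ring
        _ ≤ c * θ * (r ^ σ * M) := h2
    exact le_of_mul_le_mul_right h3 (by positivity)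
  have hc1 : 1 ≤ c := by
    have := h' 1 one_pos le_rfl
    simpa using this
  set θ : ℝ := (c + 1) ^ (-(1 / (1 - σ))) with hθ
  have hθ0 : 0 < θ := by positivity
  have hs : 0 < 1 - σ := by linarith
  have hθ1 : θ ≤ 1 := by
    apply Real.rpow_le_one_of_one_le_of_nonpos (by linarith)
    have : 0 < 1 / (1 - σ) := by positivity
    linarith
  have h5 := h' θ hθ0 hθ1
  have h6 : θ ^ σ = (c + 1) * θ := by
    have e1 : c + 1 = θ ^ (-(1 - σ)) := by
      rw [hθ, ← Real.rpow_mul (by linarith)]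
      have : -(1 / (1 - σ)) * -(1 - σ) = 1 := by field_simp
      rw [this, Real.rpow_one]
    rw [e1]
    nth_rewrite 3 [← Real.rpow_one θ]
    rw [← Real.rpow_add hθ0]
    congr 1; ring
  rw [h6] at h5
  nlinarith

end decay

/-- **Failure of the `C^1` regularity of `V(∇h)` for the `p`-Laplace system when `1 < p < 2`.**
For every dimension `d ≥ 3` and every `1 < p < 2` there is a `p`-harmonic map `h : ℝ^d → ℝ^(d^2)`
(defined on all of `ℝ^d`, with weak gradient `G`) such that `V(∇h)` has no `C^1` representative on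
any open set containing the origin, and the linear decay estimate of the mean oscillation of
`V(∇h)` fails, for every constant, already for the balls concentric to `B(0,r)`, for every
`r > 0`. -/
theorem result (d : ℕ) (hd : 3 ≤ d) (p : ℝ) (hp1 : 1 < p) (hp2 : p < 2) :
    ∃ (h : RE d → RE (d * d)) (G : RE d → Mat (d * d) d),
      IsPHarmonic p Set.univ h G ∧
      (∀ U : Set (RE d), IsOpen U → (0 : RE d) ∈ U →
        ¬ ∃ W : RE d → Mat (d * d) d, ContDiffOn ℝ 1 W U ∧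
          W =ᵐ[volume.restrict U] fun x => Vop p (G x)) ∧
      (∀ r : ℝ, 0 < r → ¬ ∃ c : ℝ, ∀ θ : ℝ, 0 < θ → θ ≤ 1 →
        osc (fun x => Vop p (G x)) (Metric.ball (0 : RE d) (θ * r))
          ≤ c * θ * osc (fun x => Vop p (G x)) (Metric.ball (0 : RE d) r)) := by
  obtain ⟨μ, hμ, hσ1, hroot⟩ := exists_root hd hp1 hp2
  have hp0 : 0 < p := by linarith
  have hσ0 : 0 < (2 * μ + 1) * p / 2 := by positivity
  have hB : 0 < (Kc d μ) ^ (p / 4) := Real.rpow_pos_of_pos (Kc_pos hd hμ) _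
  have hnorm : ∀ x : RE d, ‖Vop p (Gmap μ x)‖ = (Kc d μ) ^ (p / 4) *
      ‖x‖ ^ ((2 * μ + 1) * p / 2) := fun x => norm_Vop_Gmap hd hμ hp0 x
  refine ⟨hmap μ, Gmap μ, isPHarmonic hd hp1 hμ hroot, ?_, ?_⟩
  · intro U hU h0
    exact not_C1 (by omega) hB hσ0 hσ1 _ hnorm U hU h0
  · rintro r hr ⟨c, hc⟩
    exact not_decay (by omega) hB hσ0 hσ1 _ hnorm (fun x => Vop_Gmap_neg μ p x) hr c hc

end Pool.Agent.Results.MP_815c6c_an.SubquadraticFails
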